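import Pool.Agent.N963.GN.Stm2
import Pool.Agent.N252.GN.B
import Pool.Agent.N97.GN.C

/-! Project GN (helper963), task T5: lower bound of `-Im X'/X` near the real axis by three circles. -/

set_option autoImplicit false

namespace Pool.Agent.N282.GN

open Complex Filter Topology MeasureTheory Polynomial Pool.Agent.N963.GN
open scoped ComplexConjugate

/-- The logarithmic derivative of a polynomial tends to zero. -/
lemma logDeriv_poly (P : ℝ[X]) (hP : P ≠ 0) (ε : ℝ) (hε : 0 < ε) :
    ∃ R : ℝ, 0 < R ∧ ∀ z : ℂ, R ≤ ‖z‖ → aeval z P ≠ 0 ∧ ‖logDeriv (fun w : ℂ => aeval w P) z‖ ≤ ε := by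
  set Pc : ℂ[X] := P.map (algebraMap ℝ ℂ) with hPc
  have hPc0 : Pc ≠ 0 := (Polynomial.map_ne_zero_iff (algebraMap ℝ ℂ).injective).2 hP
  have hev : ∀ z : ℂ, aeval z P = Pc.eval z := by
    intro z; rw [hPc, eval_map_algebraMap]
  have hfun : (fun w : ℂ => aeval w P) = fun w => Pc.eval w := funext hev
  obtain ⟨M, hM0, hM⟩ : ∃ M : ℝ, 0 ≤ M ∧ ∀ r ∈ Pc.roots, ‖r‖ ≤ M := by
    refine ⟨(Pc.roots.map (fun r => ‖r‖)).sum, ?_, ?_⟩
    · apply Multiset.sum_nonneg
      intro x hx
      obtain ⟨r, _, rfl⟩ := Multiset.mem_map.1 hx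
      exact norm_nonneg r
    · intro r hr
      apply Multiset.single_le_sum (s := Pc.roots.map (fun r => ‖r‖))
      · intro x hx
        obtain ⟨r, _, rfl⟩ := Multiset.mem_map.1 hx
        exact norm_nonneg r
      · exact Multiset.mem_map_of_mem _ hr
  set n : ℝ := (Multiset.card Pc.roots : ℝ) with hn
  have hn0 : 0 ≤ n := Nat.cast_nonneg _
  refine ⟨M + 1 + n / ε, by positivity, fun z hz => ?_⟩
  have hne : ∀ r ∈ Pc.roots, 1 + n / ε ≤ ‖z - r‖ := by
    intro r hr
    have h1 := hM r hr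
    have h2 : ‖z‖ - ‖r‖ ≤ ‖z - r‖ := norm_sub_norm_le z r
    linarith
  have hPz : Pc.eval z ≠ 0 := by
    intro h0
    have hr : z ∈ Pc.roots := (mem_roots hPc0).2 h0
    have := hne z hr
    rw [sub_self, norm_zero] at this
    have : 0 ≤ n / ε := by positivity
    linarith
  refine ⟨by rw [hev]; exact hPz, ?_⟩
  have hsp : Pc.Splits := IsAlgClosed.splits Pc
  have hld : logDeriv (fun w : ℂ => aeval w P) z = (Pc.roots.map fun r => 1 / (z - r)).sum := by
    rw [hfun, logDeriv_apply, Polynomial.deriv]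
    exact hsp.eval_derivative_div_eval_of_ne_zero hPz
  rw [hld]
  have h1 : ‖(Pc.roots.map fun r => 1 / (z - r)).sum‖ ≤
      (Pc.roots.map fun r => ‖1 / (z - r)‖).sum := by
    have := norm_multiset_sum_le (Pc.roots.map fun r => 1 / (z - r))
    rwa [Multiset.map_map] at this
  have h2 : (Pc.roots.map fun r => ‖1 / (z - r)‖).sum ≤ Multiset.card (Pc.roots.map fun r => ‖1 / (z - r)‖) • (1 / (1 + n / ε)) := by
    apply Multiset.sum_le_card_nsmul
    intro x hx
    obtain ⟨r, hr, rfl⟩ := Multiset.mem_map.1 hx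
    rw [norm_div, norm_one]
    exact one_div_le_one_div_of_le (by positivity) (hne r hr)
  rw [Multiset.card_map, nsmul_eq_mul, ← hn] at h2
  refine (h1.trans h2).trans ?_
  rw [mul_one_div, div_le_iff₀ (by positivity)]
  have : ε * (1 + n / ε) = ε + n := by field_simp
  rw [this]; linarith

/-- the logarithmic derivative is holomorphic where the function does not vanish -/
lemma diffAt_logDeriv {f : ℂ → ℂ} (hf : Differentiable ℂ f) {z : ℂ} (hz : f z ≠ 0) :
    DifferentiableAt ℂ (logDeriv f) z := by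
  have h1 : DifferentiableAt ℂ (deriv f) z :=
    (hf.analyticAt z).deriv.differentiableAt
  exact h1.div (hf z) hz

theorem t5 (hH : S_H1) : S_T5 := by
  intro X hX hsym hgro hfin hLD
  obtain ⟨P, g, hP, hRR, hgs, -, hfac, -⟩ := hH X hX hsym hgro hfin 0
  obtain ⟨c0, h0, r0, C, x0, hc0, hr0, hrh, hC, hx0, hld⟩ := hLD
  obtain ⟨R1, hR1, hRP⟩ := logDeriv_poly P hP 1 one_pos
  have hh0 : 0 < h0 := hr0.trans hrh
  have hgd : Differentiable ℂ g := hRR.1
  have hb1 := Pool.Agent.N252.GN.b1 g hRR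
  have hPd : Differentiable ℂ (fun w : ℂ => aeval w P) := Polynomial.differentiable_aeval P
  have hXeq : X = fun w => aeval w P * g w := funext hfac
  have hsum : ∀ z : ℂ, 0 < z.im → R1 ≤ ‖z‖ →
      logDeriv X z = logDeriv (fun w : ℂ => aeval w P) z + logDeriv g z := by
    intro z hz hR
    rw [hXeq]
    exact logDeriv_mul z (hRP z hR).1 (hb1 z hz).1 (hPd z) (hgd z)
  refine ⟨c0 / 2, h0 - r0, by positivity, by linarith, fun η hη hηlt => ?_⟩
  obtain ⟨θ, hθ0, hθ1, hthree⟩ := Pool.Agent.N97.GN.c1 r0 (h0 - η) (h0 - η / 2) hr0 (by linarith)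
    (by linarith)
  -- the constant on the third circle
  set q : ℝ := 20 * (h0 / (η / 2)) ^ 2 with hq
  have hq0 : 0 < q := by positivity
  set K : ℝ := Real.sqrt ((h0 - η / 2) ^ 2 * q / ((η / 2) * h0)) with hK
  have hK0 : 0 ≤ K := Real.sqrt_nonneg _
  have hη2 : 0 < h0 - η / 2 := by linarith
  have key : Tendsto (fun y : ℝ => (C + 1) ^ (1 - θ) * ((K + 1) * (c0 * y + C + 1) + c0 * y + 1) ^ θ / y)
      atTop (𝓝 0) := by
    have h1 : Tendsto (fun y : ℝ => (((K + 1) * (c0 * y + C + 1) + c0 * y + 1) / y) ^ θ) atTop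
        (𝓝 (((K + 1) * c0 + c0) ^ θ)) := by
      apply Tendsto.rpow_const _ (Or.inr hθ0.le)
      have : Tendsto (fun y : ℝ => ((K + 1) * c0 + c0) + ((K + 1) * (C + 1) + 1) * y⁻¹) atTop
          (𝓝 (((K + 1) * c0 + c0) + ((K + 1) * (C + 1) + 1) * 0)) :=
        tendsto_const_nhds.add (tendsto_const_nhds.mul tendsto_inv_atTop_zero)
      rw [mul_zero, add_zero] at this
      refine this.congr' ?_
      filter_upwards [eventually_gt_atTop 0] with y hy
      field_simp
      ring
    have h2 : Tendsto (fun y : ℝ => y ^ (-(1 - θ))) atTop (𝓝 0) :=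
      tendsto_rpow_neg_atTop (by linarith)
    have h3 := (tendsto_const_nhds (x := (C + 1) ^ (1 - θ))).mul (h1.mul h2)
    rw [mul_zero, mul_zero] at h3
    refine h3.congr' ?_
    filter_upwards [eventually_gt_atTop 0] with y hy
    have hnn : 0 ≤ (K + 1) * (c0 * y + C + 1) + c0 * y + 1 := by positivity
    rw [Real.div_rpow hnn hy.le, Real.rpow_neg hy.le, Real.rpow_sub hy, Real.rpow_one]
    have hyθ : 0 < y ^ θ := Real.rpow_pos_of_pos hy θ
    field_simp
  obtain ⟨y1, hy1⟩ := eventually_atTop.1 (key.eventually (gt_mem_nhds (show (0 : ℝ) < c0 / 4 by positivity)))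
  refine ⟨max (max 1 x0) (max (R1 + h0 + 1) (Real.exp (max (max y1 1) (4 / c0)))),
    le_max_of_le_left (le_max_left _ _), fun x hx => ?_⟩
  have hx1 : 1 ≤ |x| := (le_max_left _ _).trans ((le_max_left _ _).trans hx)
  have hxx0 : x0 ≤ |x| := (le_max_right _ _).trans ((le_max_left _ _).trans hx)
  have hxR : R1 + h0 + 1 ≤ |x| := (le_max_left _ _).trans ((le_max_right _ _).trans hx)
  have hxe : Real.exp (max (max y1 1) (4 / c0)) ≤ |x| :=
    (le_max_right _ _).trans ((le_max_right _ _).trans hx)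
  have hxl : max (max y1 1) (4 / c0) ≤ Real.log |x| := by
    rw [Real.le_log_iff_exp_le (by linarith)]; exact hxe
  set l : ℝ := Real.log |x| with hl
  have hl1 : 1 ≤ l := (le_max_right _ _).trans ((le_max_left _ _).trans hxl)
  have hly1 : y1 ≤ l := (le_max_left _ _).trans ((le_max_left _ _).trans hxl)
  have hlc : 4 / c0 ≤ l := (le_max_right _ _).trans hxl
  have hlc' : 4 ≤ c0 * l := by rw [div_le_iff₀ hc0] at hlc; linarith
  have hl0 : 0 < l := by linarith
  set c : ℂ := (x : ℂ) + h0 * I with hc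
  have hcre : c.re = x := by simp [hc]
  have hcim : c.im = h0 := by simp [hc]
  have hfar : ∀ z : ℂ, ‖z - c‖ ≤ h0 → R1 ≤ ‖z‖ := by
    intro z hz
    have h1 : |(z - c).re| ≤ ‖z - c‖ := abs_re_le_norm _
    rw [sub_re, hcre] at h1
    have h2 : |z.re| ≤ ‖z‖ := abs_re_le_norm _
    have h3 : |x| ≤ |z.re| + |z.re - x| := by
      have := abs_sub_abs_le_abs_sub x z.re
      rw [abs_sub_comm x z.re] at this
      linarith
    linarith
  -- the bounds for g
  have hgX : ∀ z : ℂ, ‖z - c‖ ≤ r0 → 0 < z.im → ‖logDeriv g z + I * ((c0 * l : ℝ) : ℂ)‖ ≤ C + 1 := by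
    intro z hz him
    have hR := hfar z (by linarith)
    have h1 := (hld x hxx0 z hz).2
    have h2 := (hRP z hR).2
    have h3 : logDeriv g z + I * ((c0 * l : ℝ) : ℂ) =
        (logDeriv X z + I * ((c0 * l : ℝ) : ℂ)) - logDeriv (fun w : ℂ => aeval w P) z := by
      rw [hsum z him hR]; ring
    rw [h3]
    exact (norm_sub_le _ _).trans (by linarith)
  have hcg : ‖logDeriv g c‖ ≤ c0 * l + C + 1 := by
    have h1 := hgX c (by simp [hr0.le]) (by rw [hcim]; exact hh0)
    have h2 : ‖I * ((c0 * l : ℝ) : ℂ)‖ = c0 * l := by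
      rw [norm_mul, norm_I, one_mul, norm_real, Real.norm_of_nonneg (by positivity)]
    have h3 : ‖logDeriv g c‖ ≤ ‖logDeriv g c + I * ((c0 * l : ℝ) : ℂ)‖ + ‖I * ((c0 * l : ℝ) : ℂ)‖ := by
      have := norm_sub_le (logDeriv g c + I * ((c0 * l : ℝ) : ℂ)) (I * ((c0 * l : ℝ) : ℂ))
      rwa [add_sub_cancel_right] at this
    linarith
  have hbase : 0 ≤ c0 * l + C + 1 := by positivity
  have hM3 : ∀ z : ℂ, ‖z - c‖ = h0 - η / 2 →
      ‖logDeriv g z + I * ((c0 * l : ℝ) : ℂ)‖ ≤ (K + 1) * (c0 * l + C + 1) + c0 * l + 1 := by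
    intro z hz
    have him : |z.im - h0| ≤ h0 - η / 2 := by
      have := abs_im_le_norm (z - c)
      rw [sub_im, hcim, hz] at this; exact this
    have hre : |z.re - x| ≤ h0 - η / 2 := by
      have := abs_re_le_norm (z - c)
      rw [sub_re, hcre, hz] at this; exact this
    have him1 : η / 2 ≤ z.im := by linarith [(abs_le.1 him).1]
    have him2 : z.im ≤ 2 * h0 := by linarith [(abs_le.1 him).2]
    have him0 : 0 < z.im := by linarith
    have hb4 := Pool.Agent.N252.GN.b4 g hRR z c (η / 2) h0 (by positivity) (by linarith) hcim him1 him2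
      (by rw [hcre]; linarith)
    rw [← hq] at hb4
    have hb3 := Pool.Agent.N252.GN.b3 g hRR z c him0 (by rw [hcim]; exact hh0)
    have hcp : 0 ≤ -(logDeriv g c).im := (hb1 c (by rw [hcim]; exact hh0)).2.1
    have hzp : 0 ≤ -(logDeriv g z).im := (hb1 z him0).2.1
    have hcle : -(logDeriv g c).im ≤ c0 * l + C + 1 := by
      have := abs_im_le_norm (logDeriv g c)
      have h2 := neg_abs_le (logDeriv g c).im
      linarith
    rw [hz, hcim] at hb3
    have hprod : (logDeriv g z).im * (logDeriv g c).im ≤ q * (c0 * l + C + 1) ^ 2 := by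
      have e : (logDeriv g z).im * (logDeriv g c).im = (-(logDeriv g z).im) * (-(logDeriv g c).im) := by
        ring
      rw [e]
      calc (-(logDeriv g z).im) * (-(logDeriv g c).im)
          ≤ (q * (-(logDeriv g c).im)) * (-(logDeriv g c).im) :=
            mul_le_mul_of_nonneg_right hb4 hcp
        _ = q * (-(logDeriv g c).im) ^ 2 := by ring
        _ ≤ q * (c0 * l + C + 1) ^ 2 := by
            apply mul_le_mul_of_nonneg_left _ hq0.le
            exact pow_le_pow_left₀ hcp hcle 2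
    have hsq : ‖logDeriv g z - logDeriv g c‖ ^ 2 ≤ (K * (c0 * l + C + 1)) ^ 2 := by
      rw [mul_pow, hK, Real.sq_sqrt (by positivity)]
      have h5 : ‖logDeriv g z - logDeriv g c‖ ^ 2 * ((η / 2) * h0) ≤
          (h0 - η / 2) ^ 2 * (q * (c0 * l + C + 1) ^ 2) := by
        calc ‖logDeriv g z - logDeriv g c‖ ^ 2 * ((η / 2) * h0)
            ≤ ‖logDeriv g z - logDeriv g c‖ ^ 2 * (z.im * h0) := by
              apply mul_le_mul_of_nonneg_left _ (sq_nonneg _)
              exact mul_le_mul_of_nonneg_right him1 hh0.le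
          _ ≤ _ := hb3
          _ ≤ _ := mul_le_mul_of_nonneg_left hprod (sq_nonneg _)
      rw [div_mul_eq_mul_div, le_div_iff₀ (by positivity)]
      calc _ ≤ _ := h5
        _ = _ := by ring
    have hdiff : ‖logDeriv g z - logDeriv g c‖ ≤ K * (c0 * l + C + 1) :=
      le_of_sq_le_sq hsq (by positivity)
    have h6 : ‖I * ((c0 * l : ℝ) : ℂ)‖ = c0 * l := by
      rw [norm_mul, norm_I, one_mul, norm_real, Real.norm_of_nonneg (by positivity)]
    have h7 : logDeriv g z + I * ((c0 * l : ℝ) : ℂ) =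
        (logDeriv g z - logDeriv g c) + logDeriv g c + I * ((c0 * l : ℝ) : ℂ) := by ring
    rw [h7]
    refine (norm_add₃_le).trans ?_
    rw [h6]
    nlinarith
  -- three circles
  set f : ℂ → ℂ := fun z => logDeriv g z + I * ((c0 * l : ℝ) : ℂ) with hf
  have hdiff : DifferentiableOn ℂ f (Metric.closedBall c (h0 - η / 2)) := by
    intro z hz
    rw [Metric.mem_closedBall, dist_eq_norm] at hz
    have him : |z.im - h0| ≤ h0 - η / 2 := by
      have := abs_im_le_norm (z - c)
      rw [sub_im, hcim] at this; linarith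
    have him0 : 0 < z.im := by linarith [(abs_le.1 him).1]
    exact ((diffAt_logDeriv hgd (hb1 z him0).1).add_const _).differentiableWithinAt
  set w : ℂ := (x : ℂ) + η * I with hw
  have hwim : w.im = η := by simp [hw]
  have hwc : ‖w - c‖ = h0 - η := by
    have : w - c = ((η - h0 : ℝ) : ℂ) * I := by rw [hw, hc]; push_cast; ring
    rw [this, norm_mul, norm_I, mul_one, norm_real, Real.norm_of_nonpos (by linarith)]
    ring
  have h3 := hthree f c (C + 1) ((K + 1) * (c0 * l + C + 1) + c0 * l + 1) (by positivity) (by positivity)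
    hdiff (fun z hz => hgX z hz.le (by
      have := abs_im_le_norm (z - c)
      rw [sub_im, hcim, hz] at this
      linarith [(abs_le.1 this).1])) hM3 w hwc
  have h4 := hy1 l hly1
  rw [div_lt_iff₀ hl0] at h4
  have hfw : ‖f w‖ ≤ c0 / 4 * l := h3.trans h4.le
  have hRw : R1 ≤ ‖w‖ := hfar w (by rw [hwc]; linarith)
  have hwpos : 0 < w.im := by rw [hwim]; exact hη
  refine ⟨?_, ?_⟩
  · rw [hfac w]
    exact mul_ne_zero (hRP w hRw).1 (hb1 w hwpos).1
  · rw [hsum w hwpos hRw]
    have h8 : logDeriv g w = f w - I * ((c0 * l : ℝ) : ℂ) := by rw [hf]; ring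
    have h9 : (I * ((c0 * l : ℝ) : ℂ)).im = c0 * l := by
      rw [I_mul_im, ofReal_re]
    rw [h8, add_im, sub_im, h9]
    have h10 := (abs_im_le_norm (f w)).trans hfw
    have h11 := (abs_im_le_norm (logDeriv (fun w : ℂ => aeval w P) w)).trans (hRP w hRw).2
    have h12 := (abs_le.1 h10).2
    have h13 := (abs_le.1 h11).2
    linarith

end Pool.Agent.N282.GN
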